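import Pool.Agent.R980.GWShort

set_option autoImplicit false

open scoped ENNReal
open Filter Topology

namespace Pool.Agent.Results.MP_d1698a_pr.TwoSidedScales

open Pool.Agent.R980.GW

/-- The case of a regular `f`. -/
lemma two_sided (f : ℕ → ℝ) (hf : ∀ n, 1 ≤ n → 0 < f n)
    (hmono : ∀ i j, 1 ≤ i → i ≤ j → f i ≤ f j) (hlim : Tendsto f atTop atTop)
    (C : ℝ) (hC : ∀ n, 1 ≤ n → f (n ^ 2) ≤ C * f n) :
    ∃ μ : PMF ℕ, Critical μ ∧ (∀ n, 1 ≤ n → sizeProb μ n ≠ 0) ∧ ∃ c C' : ℝ, 0 < c ∧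
      Tendsto (fun n : ℕ => condProb μ n
        (fun t => (height t : ℝ) < c * (f n * Real.log n))) atTop (𝓝 0) ∧
      Tendsto (fun n : ℕ => condProb μ n
        (fun t => C' * (f n * Real.log n) < (height t : ℝ))) atTop (𝓝 0) := by
  have hf1 := hf 1 le_rfl
  have hC1 : 1 ≤ C := by
    have := hC 1 le_rfl
    rw [one_pow] at this
    by_contra hcon
    push Not at hcon
    nlinarith
  obtain ⟨c, hc0, hc⟩ := lower_bound f hf hmono hlim C hC1 hC
  refine ⟨(profile f hf hmono hlim).law, critical_law f hf hmono hlim,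
    sizeProb_ne_zero f hf hmono hlim, c, 24 * C ^ 3 / f 1, hc0, hc, ?_⟩
  have hzero : Tendsto (fun n : ℕ => ENNReal.ofReal (16 / (n : ℝ))) atTop (𝓝 0) := by
    have h1 := tendsto_const_div_atTop_nhds_zero_nat (16 : ℝ)
    have h2 := (ENNReal.continuous_ofReal.tendsto 0).comp h1
    rw [ENNReal.ofReal_zero] at h2
    exact h2
  refine tendsto_of_tendsto_of_tendsto_of_le_of_le' tendsto_const_nhds hzero
    (Eventually.of_forall fun n => zero_le) ?_
  filter_upwards [eventually_ge_atTop 2] with n hn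
  have hlogn : 0 ≤ Real.log n := Real.log_nonneg (by exact_mod_cast (by omega : 1 ≤ n))
  have h8 : f (n ^ 8) ≤ C ^ 3 * f n := by
    have := iterate_pow f C (by linarith) hC 3 n (by omega)
    norm_num at this
    exact this
  set x : ℝ := 24 * (f (n ^ 8) / f 1) * Real.log n with hx
  have hxle : x ≤ 24 * C ^ 3 / f 1 * (f n * Real.log n) := by
    rw [hx]
    calc 24 * (f (n ^ 8) / f 1) * Real.log n ≤ 24 * (C ^ 3 * f n / f 1) * Real.log n := by gcongr
      _ = 24 * C ^ 3 / f 1 * (f n * Real.log n) := by ring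
  have h10 := upper_bound f hf hmono hlim n hn ⌈x⌉₊ (Nat.le_ceil _)
  refine le_trans ?_ h10
  unfold condProb
  gcongr with t
  by_cases h4 : size t = n ∧ 24 * C ^ 3 / f 1 * (f n * Real.log n) < (height t : ℝ)
  · rw [if_pos h4, if_pos]
    refine ⟨h4.1, ?_⟩
    have h5 : x ≤ (height t : ℝ) := by linarith [h4.2]
    exact Nat.ceil_le.mpr h5
  · rw [if_neg h4]
    exact zero_le

theorem result (f : ℕ → ℝ) (hf : ∀ n, 1 ≤ n → 0 < f n) (hlim : Tendsto f atTop atTop)
    (hmono : ∀ i j, 1 ≤ i → i ≤ j → f i ≤ f j)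
    (hC : ∃ C : ℝ, ∀ n, 1 ≤ n → f (n ^ 2) ≤ C * f n) :
    ∃ μ : PMF ℕ, Critical μ ∧ (∀ n, 1 ≤ n → sizeProb μ n ≠ 0) ∧ ∃ c C' : ℝ, 0 < c ∧
      Tendsto (fun n : ℕ => condProb μ n
        (fun t => (height t : ℝ) < c * (f n * Real.log n))) atTop (𝓝 0) ∧
      Tendsto (fun n : ℕ => condProb μ n
        (fun t => C' * (f n * Real.log n) < (height t : ℝ))) atTop (𝓝 0) := by
  obtain ⟨C, hC⟩ := hC
  exact two_sided f hf hmono hlim C hC

end Pool.Agent.Results.MP_d1698a_pr.TwoSidedScales
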